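import Pool.Agent.H37R3.K5.Pen
import Pool.Agent.H37R3.CopL

/-! 3-graphs without a complete 3-graph on five vertices. -/

set_option autoImplicit false
open Finset
open scoped Classical

namespace Pool.Agent.H37R3.K5
open Pool.Agent.H122R2.N6 Pool.Agent.H37R3.Cop

variable {V : Type}

/-- no five vertices span all ten triples -/
def K53Free (H : Finset (Finset V)) : Prop :=
  ∀ S : Finset V, S.card = 5 → ∃ s ⊆ S, s.card = 3 ∧ s ∉ H

theorem sorted5 (t : Finset (Fin 5)) (ht : t.card = 3) :
    ∃ i j k : Fin 5, i < j ∧ j < k ∧ t = {i, j, k} := by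
  obtain ⟨x, y, z, hxy, hxz, hyz, rfl⟩ := Finset.card_eq_three.mp ht
  rcases lt_or_gt_of_ne hxy with h1 | h1 <;> rcases lt_or_gt_of_ne hxz with h2 | h2 <;>
    rcases lt_or_gt_of_ne hyz with h3 | h3
  · exact ⟨x, y, z, h1, h3, rfl⟩
  · exact ⟨x, z, y, h2, h3, by rw [pair_comm y z]⟩
  · exact absurd (h1.trans h3) (not_lt.mpr h2.le)
  · exact ⟨z, x, y, h2, h1, by ext t; simp; tauto⟩
  · exact ⟨y, x, z, h1, h2, by rw [insert_comm]⟩
  · exact absurd (h1.trans h2) (not_lt.mpr h3.le)
  · exact ⟨y, z, x, h3, h2, by ext t; simp; tauto⟩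
  · exact ⟨z, y, x, h3, h1, by ext t; simp; tauto⟩

theorem tri_noK5 {H : Finset (Finset V)} (hH : ∀ e ∈ H, e.card = 3) (hF : K53Free H) :
    NoK5 (tri H) := by
  intro a b c d e
  by_contra hcon
  rw [Bool.not_eq_false] at hcon
  have h4 := Nat.eq_of_beq_eq_true hcon
  simp only [Nat.add_eq] at h4
  have hb : ∀ x y z : V, tri H x y z ≤ 1 := by
    intro x y z
    unfold tri
    split_ifs <;> simp
  have b0 := hb a b c
  have b1 := hb a b d
  have b2 := hb a c d
  have b3 := hb b c d
  have b4 := hb a b e
  have b5 := hb a c e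
  have b6 := hb b c e
  have b7 := hb a d e
  have b8 := hb b d e
  have b9 := hb c d e
  have key : ∀ i j k : Fin 5, i < j → j < k →
      tri H (![a, b, c, d, e] i) (![a, b, c, d, e] j) (![a, b, c, d, e] k) = 1 := by
    intro i j k hij hjk
    fin_cases i <;> fin_cases j <;> first | exact absurd hij (by decide) | skip
    all_goals fin_cases k <;> first | exact absurd hjk (by decide) | skip
    all_goals first
      | (change tri H a b c = 1; omega) | (change tri H a b d = 1; omega)
      | (change tri H a b e = 1; omega) | (change tri H a c d = 1; omega)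
      | (change tri H a c e = 1; omega) | (change tri H a d e = 1; omega)
      | (change tri H b c d = 1; omega) | (change tri H b c e = 1; omega)
      | (change tri H b d e = 1; omega) | (change tri H c d e = 1; omega)
  set f : Fin 5 → V := ![a, b, c, d, e] with hf
  have mem : ∀ i j k : Fin 5, i < j → j < k → ({f i, f j, f k} : Finset V) ∈ H := by
    intro i j k hij hjk
    exact tri_one.mp (key i j k hij hjk)
  have hlt : ∀ i j : Fin 5, i < j → f i ≠ f j := by
    intro i j hij
    have hk : ∃ k : Fin 5, (k < i) ∨ (i < k ∧ k < j) ∨ (j < k) := by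
      revert i j; decide
    obtain ⟨k, hk | ⟨hk1, hk2⟩ | hk⟩ := hk
    · exact (distinct_of_mem hH (mem k i j hk hij)).2.2
    · exact (distinct_of_mem hH (mem i k j hk1 hk2)).2.1
    · exact (distinct_of_mem hH (mem i j k hij hk)).1
  have hinj : Function.Injective f := by
    intro i j hij
    rcases lt_trichotomy i j with h | h | h
    · exact absurd hij (hlt i j h)
    · exact h
    · exact absurd hij.symm (hlt j i h)
  obtain ⟨s, hs, hs3, hsH⟩ := hF (univ.image f) (by rw [card_image_of_injective _ hinj]; rfl)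
  obtain ⟨t, -, rfl⟩ := subset_image_iff.mp hs
  rw [card_image_of_injective _ hinj] at hs3
  obtain ⟨i, j, k, hij, hjk, rfl⟩ := sorted5 t hs3
  apply hsH
  simp only [image_insert, image_singleton]
  exact mem i j k hij hjk

end Pool.Agent.H37R3.K5
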