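import Pool.Agent.H37R3.Pen
import Pool.Agent.H37R3.K5.Walk

/-! Six-vertex flags for 3-graphs without a complete 3-graph on five vertices, with penalty terms
for listed structures. -/

set_option autoImplicit false
set_option maxRecDepth 100000
set_option maxHeartbeats 4000000
open Finset

namespace Pool.Agent.H37R3.K5
open Pool.Agent.H122R2.N6 Pool.Agent.H37R3.Pen

/-- the leaf inequality, with a penalty on the structures of the list -/
def chk5 (q4 : ℕ → ℕ → ℕ → ℕ) (q2 : ℕ → ℕ → ℕ) (C P : ℕ) (L : List ℕ) (b012 b013 b023 b123 b014 b024 b124 b034 b134 b234 : ℕ) : Bool :=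
  B2 fun b015 => B2 fun b025 => B2 fun b125 => B2 fun b035 => B2 fun b135 => B2 fun b235 => or (k5b b012 b013 b023 b123 b015 b025 b125 b035 b135 b235) (B2 fun b045 => B2 fun b145 => B2 fun b245 => or (k5b b012 b014 b024 b124 b015 b025 b125 b045 b145 b245) (B2 fun b345 => or (k5b b013 b014 b034 b134 b015 b035 b135 b045 b145 b345) (or (k5b b023 b024 b034 b234 b025 b035 b235 b045 b245 b345) (or (k5b b123 b124 b134 b234 b125 b135 b235 b145 b245 b345) (or (Nat.ble (Nat.add (leaf4 q4 b012 b013 b023 b123 b014 b024 b124 b034 b134 b234 b015 b025 b125 b035 b135 b235 b045 b145 b245 b345) (leaf2 q2 b012 b013 b023 b123 b014 b024 b124 b034 b134 b234 b015 b025 b125 b035 b135 b235 b045 b145 b245 b345)) C) (and (mem L b012 b013 b023 b123 b014 b024 b124 b034 b134 b234 b015 b025 b125 b035 b135 b235 b045 b145 b245 b345) (Nat.ble (Nat.add (leaf4 q4 b012 b013 b023 b123 b014 b024 b124 b034 b134 b234 b015 b025 b125 b035 b135 b235 b045 b145 b245 b345) (leaf2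 q2 b012 b013 b023 b123 b014 b024 b124 b034 b134 b234 b015 b025 b125 b035 b135 b235 b045 b145 b245 b345)) (Nat.add C P))))))))

section
variable {V : Type} {E : V → V → V → ℕ}

/-- no complete 3-graph on five vertices -/
def NoK5 {V : Type} (E : V → V → V → ℕ) : Prop := ∀ a b c d e, k5b (E a b c) (E a b d) (E a c d) (E b c d) (E a b e) (E a c e) (E b c e) (E a d e) (E b d e) (E c d e) = false

theorem chk5_sound (hE : Sy E) (hK : NoK5 E) {q4 : ℕ → ℕ → ℕ → ℕ} {q2 : ℕ → ℕ → ℕ} {C P : ℕ} {L : List ℕ}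
    {X : V → V → V → V → V → V → ℕ} (a b c d e f : V)
    (hmem : mem L (E a b c) (E a b d) (E a c d) (E b c d) (E a b e) (E a c e) (E b c e) (E a d e) (E b d e) (E c d e) (E a b f) (E a c f) (E b c f) (E a d f) (E b d f) (E c d f) (E a e f) (E b e f) (E c e f) (E d e f) = true → X a b c d e f = 1)
    (h : chk5 q4 q2 C P L (E a b c) (E a b d) (E a c d) (E b c d) (E a b e) (E a c e) (E b c e) (E a d e) (E b d e) (E c d e) = true) :
    K4l E q4 a b c d e f + K2l E q2 a b c d e f ≤ C + P * X a b c d e f := by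
  have h1 := (or_false_left (or_false_left (or_false_left (B2_true (or_false_left (B2_true (B2_true (B2_true (or_false_left (B2_true (B2_true (B2_true (B2_true (B2_true (B2_true h (hE.b a b f)) (hE.b a c f)) (hE.b b c f)) (hE.b a d f)) (hE.b b d f)) (hE.b c d f)) (hK a b c d f)) (hE.b a e f)) (hE.b b e f)) (hE.b c e f)) (hK a b c e f)) (hE.b d e f)) (hK a b d e f)) (hK a c d e f)) (hK b c d e f))
  rw [Bool.or_eq_true] at h1
  rcases h1 with h1 | h1
  · exact le_trans (Nat.le_of_ble_eq_true h1) (Nat.le_add_right _ _)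
  · rw [Bool.and_eq_true] at h1
    rw [hmem h1.1, mul_one]
    exact Nat.le_of_ble_eq_true h1.2

theorem rep_good5 (hE : Sy E) (hK : NoK5 E) {q4 : ℕ → ℕ → ℕ → ℕ} {q2 : ℕ → ℕ → ℕ} {C P : ℕ} {L : List ℕ}
    {X : V → V → V → V → V → V → ℕ}
    (hmem : ∀ a b c d e f, mem L (E a b c) (E a b d) (E a c d) (E b c d) (E a b e) (E a c e) (E b c e) (E a d e) (E b d e) (E c d e) (E a b f) (E a c f) (E b c f) (E a d f) (E b d f) (E c d f) (E a e f) (E b e f) (E c e f) (E d e f) = true → X a b c d e f = 1)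
    (hc : ∀ b012 b013 b023 b123 b014 b024 b124 b034 b134 b234 : ℕ, Bt b012 → Bt b013 → Bt b023 → Bt b123 → Bt b014 → Bt b024 → Bt b124 → Bt b034 → Bt b134 → Bt b234 → tg5 b012 b013 b023 b123 b014 b024 b124 b034 b134 b234 = 4 → chk5 q4 q2 C P L b012 b013 b023 b123 b014 b024 b124 b034 b134 b234 = true)
    (b012 b013 b023 b123 b014 b024 b124 b034 b134 b234 : ℕ) (ht : tg5 b012 b013 b023 b123 b014 b024 b124 b034 b134 b234 = 4) : GoodX E q4 q2 C P X b012 b013 b023 b123 b014 b024 b124 b034 b134 b234 := by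
  intro a b c d e f h0 h1 h2 h3 h4 h5 h6 h7 h8 h9
  subst h0 h1 h2 h3 h4 h5 h6 h7 h8 h9
  have h := hc _ _ _ _ _ _ _ _ _ _ (hE.b _ _ _) (hE.b _ _ _) (hE.b _ _ _) (hE.b _ _ _) (hE.b _ _ _) (hE.b _ _ _) (hE.b _ _ _) (hE.b _ _ _) (hE.b _ _ _) (hE.b _ _ _) ht
  have h2 := chk5_sound hE hK a b c d e f (hmem a b c d e f) h
  rwa [K4l_eq E q4 hE.h132 hE.h231 hE.h213 hE.h312, K2l_eq E q2 hE.h132 hE.h231 hE.h213 hE.h312] at h2

theorem walk_good5 (hE : Sy E) {q4 : ℕ → ℕ → ℕ → ℕ} {q2 : ℕ → ℕ → ℕ} {C P : ℕ}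
    {X : V → V → V → V → V → V → ℕ} (hX0 : ∀ a b c d e f, X b a c d e f = X a b c d e f)
    (hX1 : ∀ a b c d e f, X a c b d e f = X a b c d e f)
    (hX2 : ∀ a b c d e f, X a b d c e f = X a b c d e f)
    (hX3 : ∀ a b c d e f, X a b c e d f = X a b c d e f)
    (hs4 : sym4 q4 = true) (hs2 : sym2 q2 = true)
    (hr : ∀ b012 b013 b023 b123 b014 b024 b124 b034 b134 b234 : ℕ, tg5 b012 b013 b023 b123 b014 b024 b124 b034 b134 b234 = 4 → GoodX E q4 q2 C P X b012 b013 b023 b123 b014 b024 b124 b034 b134 b234) (n : ℕ) :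
    ∀ b012 b013 b023 b123 b014 b024 b124 b034 b134 b234 : ℕ, walk5 n b012 b013 b023 b123 b014 b024 b124 b034 b134 b234 = true → GoodX E q4 q2 C P X b012 b013 b023 b123 b014 b024 b124 b034 b134 b234 := by
  induction n with
  | zero =>
    intro b012 b013 b023 b123 b014 b024 b124 b034 b134 b234 h
    exact hr _ _ _ _ _ _ _ _ _ _ (Nat.eq_of_beq_eq_true h)
  | succ n ih =>
    intro b012 b013 b023 b123 b014 b024 b124 b034 b134 b234 h
    change (cond (Nat.beq (tg5 b012 b013 b023 b123 b014 b024 b124 b034 b134 b234) 4) true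
      (cond (Nat.beq (tg5 b012 b013 b023 b123 b014 b024 b124 b034 b134 b234) 0) (walk5 n b012 b013 b123 b023 b014 b124 b024 b134 b034 b234)
      (cond (Nat.beq (tg5 b012 b013 b023 b123 b014 b024 b124 b034 b134 b234) 1) (walk5 n b012 b023 b013 b123 b024 b014 b124 b034 b234 b134)
      (cond (Nat.beq (tg5 b012 b013 b023 b123 b014 b024 b124 b034 b134 b234) 2) (walk5 n b013 b012 b023 b123 b014 b034 b134 b024 b124 b234)
      (cond (Nat.beq (tg5 b012 b013 b023 b123 b014 b024 b124 b034 b134 b234) 3) (walk5 n b012 b014 b024 b124 b013 b023 b123 b034 b134 b234) false))))) = true at h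
    cases h4 : Nat.beq (tg5 b012 b013 b023 b123 b014 b024 b124 b034 b134 b234) 4 with
    | true => exact hr _ _ _ _ _ _ _ _ _ _ (Nat.eq_of_beq_eq_true h4)
    | false =>
    rw [h4] at h
    cases h0 : Nat.beq (tg5 b012 b013 b023 b123 b014 b024 b124 b034 b134 b234) 0 with
    | true => rw [h0] at h; exact goodX_sw0 hE hX0 hs4 hs2 _ _ _ _ _ _ _ _ _ _ (ih _ _ _ _ _ _ _ _ _ _ h)
    | false =>
    rw [h0] at h
    cases h1 : Nat.beq (tg5 b012 b013 b023 b123 b014 b024 b124 b034 b134 b234) 1 with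
    | true => rw [h1] at h; exact goodX_sw1 hE hX1 hs4 hs2 _ _ _ _ _ _ _ _ _ _ (ih _ _ _ _ _ _ _ _ _ _ h)
    | false =>
    rw [h1] at h
    cases h2 : Nat.beq (tg5 b012 b013 b023 b123 b014 b024 b124 b034 b134 b234) 2 with
    | true => rw [h2] at h; exact goodX_sw2 hE hX2 hs4 hs2 _ _ _ _ _ _ _ _ _ _ (ih _ _ _ _ _ _ _ _ _ _ h)
    | false =>
    rw [h2] at h
    cases h3 : Nat.beq (tg5 b012 b013 b023 b123 b014 b024 b124 b034 b134 b234) 3 with
    | true => rw [h3] at h; exact goodX_sw3 hE hX3 hs4 hs2 _ _ _ _ _ _ _ _ _ _ (ih _ _ _ _ _ _ _ _ _ _ h)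
    | false => rw [h3] at h; simp at h

theorem leaf5_all (hE : Sy E) (hK : NoK5 E) {q4 : ℕ → ℕ → ℕ → ℕ} {q2 : ℕ → ℕ → ℕ} {C P : ℕ} {L : List ℕ}
    {X : V → V → V → V → V → V → ℕ} (hX0 : ∀ a b c d e f, X b a c d e f = X a b c d e f)
    (hX1 : ∀ a b c d e f, X a c b d e f = X a b c d e f)
    (hX2 : ∀ a b c d e f, X a b d c e f = X a b c d e f)
    (hX3 : ∀ a b c d e f, X a b c e d f = X a b c d e f)
    (hmem : ∀ a b c d e f, mem L (E a b c) (E a b d) (E a c d) (E b c d) (E a b e) (E a c e) (E b c e) (E a d e) (E b d e) (E c d e) (E a b f) (E a c f) (E b c f) (E a d f) (E b d f) (E c d f) (E a e f) (E b e f) (E c e f) (E d e f) = true → X a b c d e f = 1)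
    (hs4 : sym4 q4 = true) (hs2 : sym2 q2 = true)
    (hc : ∀ b012 b013 b023 b123 b014 b024 b124 b034 b134 b234 : ℕ, Bt b012 → Bt b013 → Bt b023 → Bt b123 → Bt b014 → Bt b024 → Bt b124 → Bt b034 → Bt b134 → Bt b234 → tg5 b012 b013 b023 b123 b014 b024 b124 b034 b134 b234 = 4 → chk5 q4 q2 C P L b012 b013 b023 b123 b014 b024 b124 b034 b134 b234 = true)
    (a b c d e f : V) : L4 E q4 a b c d e f + L2 E q2 a b c d e f ≤ C + P * X a b c d e f := by
  have h := (B2_true (B2_true (B2_true (B2_true (B2_true (B2_true (B2_true (B2_true (B2_true (B2_true walk5_all (hE.b a b c)) (hE.b a b d)) (hE.b a c d)) (hE.b b c d)) (hE.b a b e)) (hE.b a c e)) (hE.b b c e)) (hE.b a d e)) (hE.b b d e)) (hE.b c d e))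
  have hw := or_false_left h (hK a b c d e)
  exact walk_good5 hE hX0 hX1 hX2 hX3 hs4 hs2 (fun b012 b013 b023 b123 b014 b024 b124 b034 b134 b234 h4 => rep_good5 hE hK hmem hc b012 b013 b023 b123 b014 b024 b124 b034 b134 b234 h4) _ _ _ _ _ _ _ _ _ _ _ hw
    a b c d e f rfl rfl rfl rfl rfl rfl rfl rfl rfl rfl

end
end Pool.Agent.H37R3.K5
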